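import Pool.Agent.L5helper69.SV.Defs3

/-!
# Products of recurrences; functions of finite degree
-/

set_option autoImplicit false

namespace Pool.Agent.L5helper69.SV3

open Pool.Agent.L5helper69.SV2 Polynomial

/-- The shift of sequences. -/
def shiftOp : (ℕ → ℂ) →ₗ[ℂ] (ℕ → ℂ) where
  toFun a n := a (n + 1)
  map_add' _ _ := rfl
  map_smul' _ _ := rfl

theorem shiftOp_pow (i : ℕ) (a : ℕ → ℂ) (n : ℕ) : (shiftOp ^ i) a n = a (n + i) := by
  induction i generalizing a with
  | zero => simp
  | succ i ih =>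
    rw [pow_succ, Module.End.mul_apply, ih]
    change a (n + i + 1) = a (n + (i + 1))
    rw [add_assoc]

theorem aeval_shiftOp (Q : ℂ[X]) (a : ℕ → ℂ) :
    aeval shiftOp Q a = fun n => ∑ i ∈ Finset.range (Q.natDegree + 1), Q.coeff i * a (n + i) := by
  funext n
  rw [aeval_eq_sum_range, LinearMap.sum_apply, Finset.sum_apply]
  refine Finset.sum_congr rfl fun i _ => ?_
  rw [LinearMap.smul_apply, Pi.smul_apply, shiftOp_pow, smul_eq_mul]

theorem kills_iff (Q : ℂ[X]) (a : ℕ → ℂ) : Kills Q a ↔ aeval shiftOp Q a = 0 := by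
  rw [aeval_shiftOp]
  exact ⟨fun h => funext h, fun h n => congrFun h n⟩

theorem kills_mul (P Q : ℂ[X]) (a : ℕ → ℂ) (h : Kills P
    (fun n => ∑ i ∈ Finset.range (Q.natDegree + 1), Q.coeff i * a (n + i))) : Kills (P * Q) a := by
  rw [kills_iff] at h ⊢
  rw [← aeval_shiftOp] at h
  rw [map_mul, Module.End.mul_apply]
  exact h

theorem prod : St_Prod := by
  refine ⟨?_, fun P Q a _ _ h => kills_mul P Q a h, ?_⟩
  · intro P Q a _ _ h
    rw [kills_iff] at *
    rw [kills_iff] at h
    rcases h with h | h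
    · rw [mul_comm, map_mul, Module.End.mul_apply, h, map_zero]
    · rw [map_mul, Module.End.mul_apply, h, map_zero]
  · intro P P' Q Q' hP hP' hQ hQ' h h' z hz
    rw [roots_mul (mul_ne_zero hQ hQ'), Multiset.mem_add] at hz
    rcases hz with hz | hz
    · refine Submonoid.closure_mono ?_ (h z hz)
      intro x hx
      rw [Set.mem_setOf_eq, roots_mul (mul_ne_zero hP hP'), Multiset.mem_add]
      exact Or.inl hx
    · refine Submonoid.closure_mono ?_ (h' z hz)
      intro x hx
      rw [Set.mem_setOf_eq, roots_mul (mul_ne_zero hP hP'), Multiset.mem_add]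
      exact Or.inr hx

theorem ann : St_Ann := by
  intro hDiag hDesc Γ _ H Φ hΦ P hP hGood m
  induction m with
  | zero =>
    refine ⟨1, monic_one, ?_, ?_⟩
    · intro z hz
      simp at hz
    · intro f hf x n
      have h0 : ∀ y, f y = 0 := hf
      simp [h0]
  | succ m ih =>
    obtain ⟨Q0, hQ0, hR0, h0⟩ := ih
    obtain ⟨Q1, hQ1, hR1, h1⟩ := hDesc hDiag Γ H Φ hΦ P hP hGood m
    refine ⟨Q0 * Q1, hQ0.mul hQ1, ?_, ?_⟩
    · intro z hz
      rw [roots_mul (hQ0.mul hQ1).ne_zero, Multiset.mem_add] at hz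
      rcases hz with hz | hz
      · exact hR0 z hz
      · exact hR1 z hz
    · intro f hf x
      refine kills_mul Q0 Q1 _ ?_
      have h2 := h0 _ (h1 f hf) x
      convert h2 using 2 with n
      refine Finset.sum_congr rfl fun i _ => ?_
      rw [add_comm n i, Function.iterate_add_apply]

end Pool.Agent.L5helper69.SV3
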